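import Pool.Agent.Q72.TI.Stmts

/-!
# Codimension two, complete intersections and test surfaces (helper72): homogeneous components
-/

set_option autoImplicit false

open MvPolynomial H960VB H938TB Pool.Agent.W615

namespace Pool.Agent.Q72.TI.Hom2

theorem hcZ_add {σ : Type*} (d : ℤ) (p q : MvPolynomial σ ℂ) :
    H1_hcZ d (p + q) = H1_hcZ d p + H1_hcZ d q := by
  unfold H1_hcZ
  split_ifs
  · rw [map_add]
  · rw [add_zero]

theorem main : Pool.Agent.Q72.TI.TaskHom := by
  intro m hm E W hP d a s t f hs ht hf hw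
  set δ := a - d - W.κ.1 with hδ
  set t' : Vec E.a m := fun k => H1_hcZ (E.β k + δ) (t k) with ht'
  have hker : Ker E t' := by
    intro k
    have h1 := congrArg (H1_hcZ (E.γ k + δ)) (ht k)
    rw [H1_hcZ_sum, H1_hcZ_self (p := 0) (Or.inl rfl)] at h1
    rw [← h1]
    refine Finset.sum_congr rfl fun i _ => ?_
    rw [H1_hcZ_mul (E.hom k i)]
    have h2 : E.γ k + δ - (E.γ k - E.β i) = E.β i + δ := by ring
    rw [h2]
  have hsec : Sec E δ t' :=
    sec_of_isSection ⟨fun i => H1_hcZ_homZ _ _, fun x _ => T3aux.ker_mem hker x⟩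
  refine ⟨t', hsec, ?_⟩
  apply wd_eq_of W hs.ker hker
  intro i j
  have hsi : ∀ i, HomZ (s i) (E.β i + d) := fun i => (isSection hs).1 i
  have h1 := W.eq s t hs.ker ht i j
  rw [hw] at h1
  have h2 : s i * t j = s j * t i + f * W.P i j := by linear_combination h1
  have h3 := congrArg (H1_hcZ (E.β i + E.β j + d + δ)) h2
  have h4 : HomZ (f * W.P i j) (E.β i + E.β j + d + δ) := by
    have h5 := Pool.Agent.Q72.PW.HomZ.mul hf (hP i j)
    have h6 : a + (E.β i + E.β j - W.κ.1) = E.β i + E.β j + d + δ := by rw [hδ]; ring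
    rw [h6] at h5
    exact h5
  rw [hcZ_add, H1_hcZ_self h4, H1_hcZ_mul (hsi i), H1_hcZ_mul (hsi j)] at h3
  have h7 : E.β i + E.β j + d + δ - (E.β i + d) = E.β j + δ := by ring
  have h8 : E.β i + E.β j + d + δ - (E.β j + d) = E.β i + δ := by ring
  rw [h7, h8] at h3
  linear_combination h3

end Pool.Agent.Q72.TI.Hom2
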