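import Pool.Agent.Q72.TI.Stmts

/-!
# Codimension two, complete intersections and test surfaces (helper72): the first Chern class
-/

set_option autoImplicit false

open MvPolynomial H960VB H938TB Pool.Agent.W615

namespace Pool.Agent.Q72.TI.Kap2

theorem homZ_eq {σ : Type*} {p : MvPolynomial σ ℂ} {a b : ℤ} (hp : p ≠ 0) (ha : HomZ p a)
    (hb : HomZ p b) : a = b := by
  rcases ha with h | ⟨k, hk, h1⟩
  · exact absurd h hp
  rcases hb with h | ⟨l, hl, h2⟩
  · exact absurd h hp
  have h3 := h1.inj_right h2 hp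
  omega

theorem main : Pool.Agent.Q72.TI.TaskKap := by
  intro m hm E W c hP ⟨P, hP1, hP2⟩
  have hx1 : (fun _ => 1 : Fin (m + 1) → ℂ) ≠ 0 := fun h => by simpa using congrFun h 0
  -- parallel
  have hpar : ∀ i j k l, P i j * W.P k l = P k l * W.P i j := by
    intro i j k l
    apply mul_left_cancel₀ (X_ne_zero (R := ℂ) (0 : Fin (m + 1)))
    apply MvPolynomial.funext
    intro x
    rw [map_mul, map_mul, map_mul, map_mul]
    by_cases hx : x = 0
    · rw [hx, eval_X, Pi.zero_apply, zero_mul, zero_mul]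
    congr 1
    obtain ⟨u, v, hu, hv, hli, huv⟩ := hP2 x hx
    obtain ⟨τ, τ', G, G', hG, hG', hli'⟩ := exists_sec (triv E) x hx
    have hw := (W.ind x hx G G' hG.ker hG'.ker).2 hli'
    have hspan : Submodule.span ℂ (Set.range ![u, v]) = E.fib x := by
      apply Submodule.eq_of_le_of_finrank_eq
      · rw [Submodule.span_le]
        rintro _ ⟨i, rfl⟩
        fin_cases i
        · exact hu
        · exact hv
      · rw [finrank_span_eq_card hli, Fintype.card_fin]
        exact (E.rank_two x hx).symm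
    have hmem : ∀ y ∈ E.fib x, ∃ α β : ℂ, y = α • u + β • v := by
      intro y hy
      rw [← hspan, Matrix.range_cons, Matrix.range_cons, Matrix.range_empty, Set.union_empty]
        at hy
      obtain ⟨α, β, h⟩ := Submodule.mem_span_pair.1 (show y ∈ Submodule.span ℂ {u, v} from hy)
      exact ⟨α, β, h.symm⟩
    obtain ⟨α, β, h1⟩ := hmem _ (T3aux.ker_mem hG.ker x)
    obtain ⟨α', β', h2⟩ := hmem _ (T3aux.ker_mem hG'.ker x)
    have key : ∀ i j, eval x (W.wd G G') * eval x (W.P i j) =
        (α * β' - β * α') * eval x (P i j) := by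
      intro i j
      have h3 := congrArg (eval x) (W.eq G G' hG.ker hG'.ker i j)
      rw [map_mul, map_sub, map_mul, map_mul] at h3
      rw [← h3, huv]
      have e1 : ∀ i, eval x (G i) = α * u i + β * v i := fun i => congrFun h1 i
      have e2 : ∀ i, eval x (G' i) = α' * u i + β' * v i := fun i => congrFun h2 i
      rw [e1, e1, e2, e2]
      ring
    apply mul_left_cancel₀ hw
    linear_combination (eval x (P i j)) * key k l - (eval x (P k l)) * key i j
  -- a nonzero coordinate
  obtain ⟨i, j, hij⟩ := W.P_ne _ hx1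
  have hWij : W.P i j ≠ 0 := fun h => hij (by rw [h, map_zero])
  obtain ⟨p', w', c', hrel, h1, h2⟩ :=
    UniqueFactorizationMonoid.exists_reduced_factors (W.P i j) hWij (P i j)
  have hc' : c' ≠ 0 := by
    rintro rfl
    exact hWij (by rw [← h1, zero_mul])
  have h3 : ∀ k l, p' * P k l = w' * W.P k l := by
    intro k l
    apply mul_left_cancel₀ hc'
    have h4 := hpar i j k l
    rw [← h1, ← h2] at h4
    linear_combination -h4
  have hp' : ∀ k l, p' ∣ W.P k l := fun k l =>
    hrel.dvd_of_dvd_mul_left ⟨_, (h3 k l).symm⟩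
  have hw' : ∀ k l, w' ∣ P k l := fun k l =>
    hrel.symm.dvd_of_dvd_mul_left ⟨_, h3 k l⟩
  obtain ⟨α, hα, hpα⟩ := const_of_no_zero (by omega : 2 ≤ m + 1) (p := p') (fun x hx h0 => by
    obtain ⟨k, l, hkl⟩ := W.P_ne x hx
    obtain ⟨q, hq⟩ := hp' k l
    rw [hq, map_mul, h0, zero_mul] at hkl
    exact hkl rfl)
  obtain ⟨β, hβ, hwβ⟩ := const_of_no_zero (by omega : 2 ≤ m + 1) (p := w') (fun x hx h0 => by
    obtain ⟨u, v, _, _, hli, huv⟩ := hP2 x hx
    have hz : ∀ k l, u k * v l - u l * v k = 0 := by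
      intro k l
      obtain ⟨q, hq⟩ := hw' k l
      rw [← huv, hq, map_mul, h0, zero_mul]
    obtain ⟨k, hk⟩ : ∃ k, u k ≠ 0 := by
      by_contra hcon
      push Not at hcon
      exact hli.ne_zero 0 (funext hcon)
    rw [LinearIndependent.pair_iff] at hli
    have h5 := hli (v k) (-(u k)) (by
      funext l
      simp only [Pi.add_apply, Pi.smul_apply, smul_eq_mul, Pi.zero_apply]
      linear_combination -(hz k l))
    exact hk (neg_eq_zero.1 h5.2))
  have h6 : C α * P i j = C β * W.P i j := by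
    rw [← hpα, ← hwβ]
    exact h3 i j
  have h7 : HomZ (C β * W.P i j) (0 + (E.β i + E.β j - c)) := by
    rw [← h6]
    exact Pool.Agent.Q72.PW.HomZ.mul (Or.inr ⟨0, rfl, isHomogeneous_C _ _⟩) (hP1 i j)
  have h8 : HomZ (C β * W.P i j) (0 + (E.β i + E.β j - W.κ.1)) :=
    Pool.Agent.Q72.PW.HomZ.mul (Or.inr ⟨0, rfl, isHomogeneous_C _ _⟩) (hP i j)
  have h9 := homZ_eq (mul_ne_zero (by rw [Ne, C_eq_zero]; exact hβ) hWij) h7 h8
  linarith

end Pool.Agent.Q72.TI.Kap2
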