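import Pool.Agent.Q72.TI.Stmts

/-!
# Codimension two, complete intersections and test surfaces (helper72): lifting
-/

set_option autoImplicit false

open MvPolynomial H960VB H938TB Pool.Agent.W615

namespace Pool.Agent.Q72.TI.Lift2

theorem main : Pool.Agent.Q72.TI.TaskLift := by
  classical
  intro m hm E W s hs hprm f hloc
  -- the ideal of multipliers
  let A : Ideal (MvPolynomial (Fin (m + 1)) ℂ) :=
    { carrier := {q | ∃ t : Vec E.a m, Ker E t ∧ W.wd s t = q * f}
      add_mem' := by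
        rintro q q' ⟨t, ht, hw⟩ ⟨t', ht', hw'⟩
        refine ⟨fun i => t i + t' i, ker_add ht ht', ?_⟩
        rw [wd_add_right W ht ht' hs, hw, hw']
        ring
      zero_mem' := ⟨fun _ => 0, ker_zero, by
        rw [wd_zero_right W hs ker_zero (fun _ => rfl), zero_mul]⟩
      smul_mem' := by
        rintro p q ⟨t, ht, hw⟩
        refine ⟨fun i => p * t i, ker_mul ht p, ?_⟩
        rw [wd_mul_right W ht hs, hw, smul_eq_mul]
        ring }
  have hmem : ∀ q, q ∈ A ↔ ∃ t : Vec E.a m, Ker E t ∧ W.wd s t = q * f := fun q => Iff.rfl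
  have hzero : ∀ x : Fin (m + 1) → ℂ, x ∈ zeroLocus ℂ A → x = 0 := by
    intro x hx
    by_contra hx0
    obtain ⟨q, hq, hqf⟩ := hloc x hx0
    obtain ⟨τ, τ', G, G', hG, hG', hli⟩ := exists_sec (triv E) x hx0
    have hw := (W.ind x hx0 G G' hG.ker hG'.ker).2 hli
    rw [Ideal.mem_span_range_iff_exists_fun] at hqf
    obtain ⟨c, hc⟩ := hqf
    have hin : q * W.wd G G' ∈ A := by
      refine (hmem _).2 ⟨fun i => (∑ k, c k * G k) * G' i - (∑ k, c k * G' k) * G i,
        ker_sub (ker_mul hG'.ker _) (ker_mul hG.ker _), ?_⟩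
      rw [wd_sub_right W (ker_mul hG'.ker _) (ker_mul hG.ker _) hs, wd_mul_right W hG'.ker hs,
        wd_mul_right W hG.ker hs]
      have h1 : ∀ i, W.wd G G' * s i = W.wd s G' * G i - W.wd s G * G' i := by
        intro i
        have h2 := W.three s G G' hs hG.ker hG'.ker i
        linear_combination h2
      symm
      calc q * W.wd G G' * f = W.wd G G' * (q * f) := by ring
        _ = ∑ i, c i * (W.wd G G' * s i) := by
          rw [← hc, Finset.mul_sum]
          exact Finset.sum_congr rfl fun i _ => by ring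
        _ = ∑ i, c i * (W.wd s G' * G i - W.wd s G * G' i) :=
          Finset.sum_congr rfl fun i _ => by rw [h1]
        _ = W.wd s G' * ∑ i, c i * G i - W.wd s G * ∑ i, c i * G' i := by
          rw [Finset.mul_sum, Finset.mul_sum, ← Finset.sum_sub_distrib]
          exact Finset.sum_congr rfl fun i _ => by ring
        _ = _ := by ring
    have h3 := (mem_zeroLocus_iff.1 hx) _ hin
    have h4 : eval x (q * W.wd G G') = 0 := by
      simpa [MvPolynomial.aeval_eq_eval] using h3
    rw [map_mul] at h4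
    exact (mul_ne_zero hq hw) h4
  have hrad : ∀ i : Fin (m + 1), ∃ N : ℕ, X i ^ N ∈ A := by
    intro i
    have h1 : (X i : MvPolynomial (Fin (m + 1)) ℂ) ∈ A.radical := by
      rw [← vanishingIdeal_zeroLocus_eq_radical (K := ℂ) A, mem_vanishingIdeal_iff]
      intro x hx
      rw [hzero x hx]
      simp
    exact h1
  choose Nf hNf using hrad
  obtain ⟨N, hN⟩ : ∃ N : ℕ, ∀ i : Fin (m + 1), X i ^ N ∈ A :=
    ⟨∑ i, Nf i, fun i => A.pow_mem_of_pow_mem (hNf i)
      (Finset.single_le_sum (f := Nf) (fun _ _ => Nat.zero_le _) (Finset.mem_univ i))⟩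
  choose t ht hw using fun i => (hmem _).1 (hN i)
  -- cocycle
  have hcc : ∀ i j, ∃ c, ∀ k, X j ^ N * t i k - X i ^ N * t j k = c * s k := by
    intro i j
    have h1 : W.wd s (fun k => X j ^ N * t i k - X i ^ N * t j k) = 0 := by
      rw [wd_sub_right W (ker_mul (ht i) _) (ker_mul (ht j) _) hs, wd_mul_right W (ht i) hs,
        wd_mul_right W (ht j) hs, hw, hw]
      ring
    exact hprm.dvd_wd W hs (ker_sub (ker_mul (ht i) _) (ker_mul (ht j) _)) h1
  choose c hc using hcc
  obtain ⟨k0, hk0⟩ := hprm.ne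
  let i0 : Fin (m + 1) := ⟨0, by omega⟩
  let i1 : Fin (m + 1) := ⟨1, by omega⟩
  let i2 : Fin (m + 1) := ⟨2, by omega⟩
  have h01 : i0 ≠ i1 := by intro h; simpa [i0, i1] using congrArg Fin.val h
  have h02 : i0 ≠ i2 := by intro h; simpa [i0, i2] using congrArg Fin.val h
  have h12 : i1 ≠ i2 := by intro h; simpa [i1, i2] using congrArg Fin.val h
  have hrel : X i2 ^ N * c i0 i1 = X i1 ^ N * c i0 i2 - X i0 ^ N * c i1 i2 := by
    apply mul_right_cancel₀ hk0
    linear_combination -(X i2 ^ N) * hc i0 i1 k0 + X i1 ^ N * hc i0 i2 k0 -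
      X i0 ^ N * hc i1 i2 k0
  obtain ⟨b₀, b₁, hb⟩ := H1_mono i0 i1 i2 h02 h12 N _ _ _ hrel
  have hX : (X i0 : MvPolynomial (Fin (m + 1)) ℂ) ^ N ≠ 0 := pow_ne_zero _ (X_ne_zero _)
  have hdv : ∀ k, X i0 ^ N ∣ t i0 k - b₀ * s k := by
    intro k
    refine Prime.pow_dvd_of_dvd_mul_left (X_prime (i := i0) (R := ℂ)) N (a := X i1 ^ N) ?_
      ⟨t i1 k - b₁ * s k, ?_⟩
    · intro h5
      have h6 := (X_prime (i := i0) (R := ℂ)).dvd_of_dvd_pow h5
      rw [X_dvd_X] at h6
      exact h01 h6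
    · linear_combination hc i0 i1 k + s k * hb
  choose u hu using hdv
  have hfun : (fun k => X i0 ^ N * u k) = fun k => t i0 k - b₀ * s k := by
    funext k
    exact (hu k).symm
  have hku : Ker E (fun k => X i0 ^ N * u k) := by
    rw [hfun]
    exact ker_sub (ht i0) (ker_mul hs _)
  have hku' : Ker E u := ker_of_mul hX hku
  refine ⟨u, hku', ?_⟩
  apply mul_left_cancel₀ hX
  rw [← wd_mul_right W hku' hs, hfun, wd_sub_right W (ht i0) (ker_mul hs _) hs,
    wd_mul_right W hs hs, wd_self W hs, hw]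
  ring

end Pool.Agent.Q72.TI.Lift2
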