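import Pool.Agent.Q72.TI.Stmts

/-!
# Codimension two, complete intersections and test surfaces (helper72): pull-back of polynomials
-/

set_option autoImplicit false

open MvPolynomial H960VB H938TB Pool.Agent.Q72.PW

namespace Pool.Agent.Q72.TI.Phi2

theorem main : Pool.Agent.Q72.TI.TaskPhi := by
  intro n m e ψ h
  induction h with
  | id hn =>
    refine ⟨RingHom.id _, fun x p => rfl, fun p d hp => ?_, fun x hx => hx⟩
    rw [Nat.cast_one, one_mul]
    exact hp
  | @lin m e ψ _ k hk T hT ih =>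
    obtain ⟨φ, h1, h2, h3⟩ := ih
    refine ⟨(lsub T : MvPolynomial (Fin (m + 1)) ℂ →ₐ[ℂ] MvPolynomial (Fin (k + 1)) ℂ).toRingHom.comp φ,
      fun x p => ?_, fun p d hp => ?_, fun x hx => ?_⟩
    · show eval x (lsub T (φ p)) = _
      rw [eval_lsub, h1]
    · exact homZ_lsub T (h2 p d hp)
    · exact h3 _ (fun h0 => hx (hT (by rw [h0, map_zero])))
  | @pow m e ψ _ f hf ih =>
    obtain ⟨φ, h1, h2, h3⟩ := ih
    refine ⟨(expand f : MvPolynomial (Fin (m + 1)) ℂ →ₐ[ℂ] MvPolynomial (Fin (m + 1)) ℂ).toRingHom.comp φ,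
      fun x p => ?_, fun p d hp => ?_, fun x hx => ?_⟩
    · show eval x (expand f (φ p)) = _
      rw [eval_pt, h1]
      rfl
    · have h4 := HomZ.expand f hf (h2 p d hp)
      have h5 : (f : ℤ) * (e * d) = ((f * e : ℕ) : ℤ) * d := by push_cast; ring
      rw [h5] at h4
      exact h4
    · exact h3 _ (pt_ne hf hx)

end Pool.Agent.Q72.TI.Phi2
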