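import Pool.Agent.Q72.TI.Stmts

/-!
# Codimension two, complete intersections and test surfaces (helper72): splitting
-/

set_option autoImplicit false

open MvPolynomial H960VB H938TB Pool.Agent.W615

namespace Pool.Agent.Q72.TI.Split2

theorem const_of_homZ {σ : Type*} {p : MvPolynomial σ ℂ} (h : HomZ p 0) : ∃ c : ℂ, p = C c := by
  rcases h with rfl | ⟨k, hk, hp⟩
  · exact ⟨0, by rw [map_zero]⟩
  · have hk0 : k = 0 := by omega
    subst hk0
    have h1 : p.totalDegree = 0 := Nat.le_zero.1 hp.totalDegree_le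
    exact ⟨_, (totalDegree_eq_zero_iff_eq_C).1 h1⟩

theorem main : Pool.Agent.Q72.TI.TaskSplit := by
  intro m hm E W s t₁ t₂ a b f g hs h1 h2 hw1 hw2 hf hg hf0 hrel hab
  have hD := homZ_of (W.hom _ _ t₁ t₂ h1 h2)
  have h0 : HomZ (W.wd t₁ t₂) 0 := by
    have h3 : ((((a - W.κ.1, 0) : M) + ((b - W.κ.1, 0) : M) + W.κ).1 : ℤ) = 0 := by
      simp only [Prod.fst_add]
      linarith
    rw [h3] at hD
    exact hD
  obtain ⟨c, hc⟩ := const_of_homZ h0
  by_cases hc0 : c = 0
  · rw [hc0, map_zero] at hc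
    have h3 : ∀ i, f ∣ t₁ i := by
      intro i
      have h4 := W.three s t₁ t₂ hs.ker h1.ker h2.ker i
      rw [hc, hw1, hw2] at h4
      have h5 : g * t₁ i = f * t₂ i := by linear_combination -h4
      exact hrel.dvd_of_dvd_mul_left ⟨_, h5⟩
    choose h hh using h3
    have hfun : (fun i => f * h i) = t₁ := by
      funext i
      exact (hh i).symm
    have hker : Ker E h := by
      apply ker_of_mul hf0
      rw [hfun]
      exact h1.ker
    have hw : W.wd s h = 1 := by
      apply mul_left_cancel₀ hf0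
      rw [← wd_mul_right W hker hs.ker, hfun, hw1, mul_one]
    have hhom : ∀ i, HomZ (h i) (E.β i + -W.κ.1) := by
      intro i
      have h4 : HomZ (t₁ i) (E.β i + (a - W.κ.1)) := (isSection h1).1 i
      have h5 := H1_hcZ_self h4
      rw [hh i, H1_hcZ_mul hf] at h5
      have h6 := mul_left_cancel₀ hf0 h5
      have h7 : E.β i + (a - W.κ.1) - a = E.β i + -W.κ.1 := by ring
      rw [h7] at h6
      rw [← h6]
      exact H1_hcZ_homZ _ _
    have hsec : Sec E (-W.κ.1) h :=
      sec_of_isSection ⟨hhom, fun x _ => T3aux.ker_mem hker x⟩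
    exact splits_of_const W hs hsec 1 one_ne_zero (by rw [hw, map_one])
  · exact splits_of_const W h1 h2 c hc0 hc

end Pool.Agent.Q72.TI.Split2
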