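import Pool.Agent.W467.FG.F
import Pool.Agent.Results.MP_745d3a_ag.TestSurfaces

/-!
# Codimension two, complete intersections and test surfaces (helper72): statements of lemmas

`Bundle2 m`, `Ker`, `Wedge`, `Sec`, `Prm`: see `Pool/Agent/H938R2/TB/Defs.lean`,
`Pool/Agent/W615/Gen.lean` (many lemmas: `wd_add_right`, `wd_mul_right`, `wd_sub_right`, `wd_eq_of`,
`Prm.dvd_wd`, `ker_of_mul`, `splits_of_const`), `Pool/Agent/H960R2/VB/TaskH1.lean` (`H1_pow`,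
`H1_mono`, `H1_hcZ*`).
-/

set_option autoImplicit false

open MvPolynomial H960VB H938TB

namespace Pool.Agent.Q72.TI

/-- Lifting (`H^1_*(O) = 0` on `P^m`, `m ≥ 2`): if `f` is locally in the ideal of `s`, then
`f = s ∧ t`.  Proof: (1) `A = {q | ∃ t, Ker E t ∧ W.wd s t = q * f}` is an ideal; for `x ≠ 0` take
`G, G'` from `exists_sec (triv E) x hx` (so `eval x (W.wd G G') ≠ 0` by `W.ind`), `q` from the
hypothesis, `q * f = ∑ c k * s k`; then `q * W.wd G G' ∈ A` with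
`t = (∑ c k * G k) • G' - (∑ c k * G' k) • G` (use `W.three s G G'`).  (2) Nullstellensatz, exactly
as in the proof of `H1_pow`: there is `M` with `X i ^ M ∈ A` for all `i`; `W.wd s (t i) = X i^M * f`.
(3) `Prm.dvd_wd`: `X j^M * t i - X i^M * t j = c i j * s`; so
`X 2^M * c 0 1 = X 1^M * c 0 2 - X 0^M * c 1 2`, and `H1_mono` gives
`c 0 1 = X 1^M * b₀ - X 0^M * b₁`, so `X 1^M * (t 0 - b₀ s) = X 0^M * (t 1 - b₁ s)`;
(4) `t 0 - b₀ s = X 0^M * t` (as `hdv` in `Pool.Agent.W467.FX.sat_two`), and `W.wd s t = f`. -/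
def TaskLift : Prop :=
  ∀ (m : ℕ) (_ : 2 ≤ m) (E : Bundle2 m) (W : Wedge (Pool.Agent.W615.triv E)) (s : Vec E.a m),
    Ker E s → Pool.Agent.W615.Prm s → ∀ f : MvPolynomial (Fin (m + 1)) ℂ,
    (∀ x : Fin (m + 1) → ℂ, x ≠ 0 → ∃ q : MvPolynomial (Fin (m + 1)) ℂ, eval x q ≠ 0 ∧
      q * f ∈ Ideal.span (Set.range s)) →
    ∃ t : Vec E.a m, Ker E t ∧ W.wd s t = f

/-- The Plücker coordinates are homogeneous (copy from the proof of
`Pool.Agent.Q72.PW.exists_c1`). -/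
def TaskP : Prop :=
  ∀ (m : ℕ) (_ : 1 ≤ m) (E : Bundle2 m) (W : Wedge (Pool.Agent.W615.triv E)) (i j : Fin E.a),
    HomZ (W.P i j) (E.β i + E.β j - W.κ.1)

/-- The homogeneous component of `t` of the right degree (`H1_hcZ`, `H1_hcZ_mul`, `H1_hcZ_sum`,
`H1_hcZ_self`, `H1_hcZ_homZ`; put `t' k = H1_hcZ (E.β k + (a - d - W.κ.1)) (t k)`; apply `H1_hcZ` of
degree `E.β i + E.β j + a - W.κ.1` to `s i * t j - s j * t i = f * W.P i j`, then `wd_eq_of`). -/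
def TaskHom : Prop :=
  ∀ (m : ℕ) (_ : 1 ≤ m) (E : Bundle2 m) (W : Wedge (Pool.Agent.W615.triv E)),
    (∀ i j, HomZ (W.P i j) (E.β i + E.β j - W.κ.1)) →
    ∀ (d a : ℤ) (s t : Vec E.a m) (f : MvPolynomial (Fin (m + 1)) ℂ),
    Pool.Agent.W615.Sec E d s → Ker E t → HomZ f a → W.wd s t = f →
    ∃ t' : Vec E.a m, Pool.Agent.W615.Sec E (a - d - W.κ.1) t' ∧ W.wd s t' = f

/-- `W.κ.1` is the first Chern class: the two vectors `P` (of `HasC1`) and `W.P` are parallel at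
every point (`exists_sec (triv E) x`, `W.eq`, `W.ind`), both have no zeros, so `P = u • W.P` with
`u` a nonzero constant (`Pool.Agent.W615.const_of_no_zero`; `dvd_of_primes` as in `Prm.dvd`);
compare degrees. -/
def TaskKap : Prop :=
  ∀ (m : ℕ) (_ : 1 ≤ m) (E : Bundle2 m) (W : Wedge (Pool.Agent.W615.triv E)) (c : ℤ),
    (∀ i j, HomZ (W.P i j) (E.β i + E.β j - W.κ.1)) →
    Pool.Agent.Q72.PW.HasC1 E c → W.κ.1 = c

/-- Two sections `t₁, t₂` with `s ∧ t₁ = f`, `s ∧ t₂ = g`, `f, g` coprime of degrees `a + b = κ`: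
`W.wd t₁ t₂` is homogeneous of degree `0`, so constant; if it is nonzero, `splits_of_const`; if it
is zero, then `g t₁ = f t₂` (`W.three`), so `t₁ = f h`, `W.wd s h = 1`, `h` is homogeneous
(`H1_hcZ_mul`, cancel `f`), and `splits_of_const` for `s`, `h`. -/
def TaskSplit : Prop :=
  ∀ (m : ℕ) (_ : 1 ≤ m) (E : Bundle2 m) (W : Wedge (Pool.Agent.W615.triv E))
    (s t₁ t₂ : Vec E.a m) (a b : ℤ) (f g : MvPolynomial (Fin (m + 1)) ℂ),
    Pool.Agent.W615.Sec E 0 s → Pool.Agent.W615.Sec E (a - W.κ.1) t₁ →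
    Pool.Agent.W615.Sec E (b - W.κ.1) t₂ → W.wd s t₁ = f → W.wd s t₂ = g →
    HomZ f a → HomZ g b → f ≠ 0 → IsRelPrime f g → a + b = W.κ.1 → E.Splits

/-- The pull-back of polynomials under a test morphism (induction on `Test`: `AlgHom.id`, `lsub T`
composed with the previous one (`eval_lsub`, `homZ_lsub`), `MvPolynomial.expand f` composed with the
previous one (`Pool.Agent.Q72.PW.HomZ.expand`, `eval_pt`)). -/
def TaskPhi : Prop :=
  ∀ (n m e : ℕ) (ψ : (Fin (m + 1) → ℂ) → Fin (n + 1) → ℂ),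
    Pool.Agent.Results.MP_745d3a_ag.TestSurfaces.Test n m e ψ →
    ∃ φ : MvPolynomial (Fin (n + 1)) ℂ →+* MvPolynomial (Fin (m + 1)) ℂ,
      (∀ x p, eval x (φ p) = eval (ψ x) p) ∧
      (∀ p (d : ℤ), HomZ p d → HomZ (φ p) (e * d)) ∧ ∀ x, x ≠ 0 → ψ x ≠ 0

end Pool.Agent.Q72.TI
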