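import Pool.Agent.Q72.TI.Stmts

set_option autoImplicit false

open MvPolynomial H960VB H938TB

namespace Pool.Agent.Q72.TI.TaskHom

theorem hcZ_sub {σ : Type*} (d : ℤ) (p q : MvPolynomial σ ℂ) :
    H1_hcZ d (p - q) = H1_hcZ d p - H1_hcZ d q := by
  unfold H1_hcZ
  split_ifs
  · rw [map_sub]
  · simp

theorem hcZ_zero {σ : Type*} (d : ℤ) : H1_hcZ d (0 : MvPolynomial σ ℂ) = 0 := by
  unfold H1_hcZ
  split_ifs <;> simp

theorem main : Pool.Agent.Q72.TI.TaskHom := by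
  intro m hm E W hP d a s t f hs ht hf hwd
  have hker : Ker E (fun k => H1_hcZ (E.β k + (a - d - W.κ.1)) (t k)) := by
    intro k
    have h1 := congrArg (H1_hcZ (E.γ k + (a - d - W.κ.1))) (ht k)
    rw [H1_hcZ_sum, hcZ_zero] at h1
    refine Eq.trans (Finset.sum_congr rfl fun i _ => ?_) h1
    have e0 : E.γ k + (a - d - W.κ.1) - (E.γ k - E.β i) = E.β i + (a - d - W.κ.1) := by ring
    rw [H1_hcZ_mul (E.hom k i), e0]
  refine ⟨fun k => H1_hcZ (E.β k + (a - d - W.κ.1)) (t k), ⟨fun i => ?_, hker⟩, ?_⟩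
  · have h1 := Pool.Agent.W615.wh_triv (H1_hcZ_homZ (E.β i + (a - d - W.κ.1)) (t i))
    convert h1 using 1
    simp [Pool.Agent.W615.triv]
  · apply Pool.Agent.W615.wd_eq_of W hs.ker hker
    intro i j
    have h1 := W.eq s t hs.ker ht i j
    rw [hwd] at h1
    have h2 := congrArg (H1_hcZ (E.β i + E.β j + a - W.κ.1)) h1
    have hsi := Pool.Agent.W615.Sec.homZ hs i
    have hsj := Pool.Agent.W615.Sec.homZ hs j
    rw [hcZ_sub, H1_hcZ_mul hsi, H1_hcZ_mul hsj, H1_hcZ_mul hf] at h2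
    have e1 : E.β i + E.β j + a - W.κ.1 - (E.β i + d) = E.β j + (a - d - W.κ.1) := by ring
    have e2 : E.β i + E.β j + a - W.κ.1 - (E.β j + d) = E.β i + (a - d - W.κ.1) := by ring
    have e3 : E.β i + E.β j + a - W.κ.1 - a = E.β i + E.β j - W.κ.1 := by ring
    rw [e1, e2, e3, H1_hcZ_self (hP i j)] at h2
    exact h2

end Pool.Agent.Q72.TI.TaskHom
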