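import Pool.Agent.Q72.TI.Stmts

set_option autoImplicit false

open MvPolynomial H960VB H938TB Pool.Agent.W615

namespace Pool.Agent.Q72.TI.TaskLift

theorem main : Pool.Agent.Q72.TI.TaskLift := by
  classical
  intro m hm E W s hs hprm f hloc
  let A : Ideal (MvPolynomial (Fin (m + 1)) ℂ) :=
    { carrier := {q | ∃ t : Vec E.a m, Ker E t ∧ W.wd s t = q * f}
      add_mem' := by
        rintro p q ⟨t, ht, hpt⟩ ⟨u, hu, hqu⟩
        refine ⟨fun i => t i + u i, ker_add ht hu, ?_⟩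
        rw [wd_add_right W ht hu hs, hpt, hqu]
        ring
      zero_mem' := by
        refine ⟨fun _ => 0, ker_zero, ?_⟩
        rw [wd_zero_right W hs ker_zero (fun _ => rfl)]
        ring
      smul_mem' := by
        rintro g q ⟨t, ht, hqt⟩
        refine ⟨fun i => g * t i, ker_mul ht g, ?_⟩
        rw [wd_mul_right W ht hs g, hqt, smul_eq_mul]
        ring }
  have hmem : ∀ q, q ∈ A ↔ ∃ t : Vec E.a m, Ker E t ∧ W.wd s t = q * f := fun q => Iff.rfl
  have hzero : ∀ x : Fin (m + 1) → ℂ, x ∈ zeroLocus ℂ A → x = 0 := by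
    intro x hx
    by_contra hx0
    obtain ⟨τ, τ', G, G', hG, hG', hlin⟩ := exists_sec (triv E) x hx0
    have hne := (W.ind x hx0 G G' hG.ker hG'.ker).2 hlin
    obtain ⟨q, hq, hqf⟩ := hloc x hx0
    obtain ⟨c, hc⟩ := (Ideal.mem_span_range_iff_exists_fun).1 hqf
    have h1 : q * W.wd G G' ∈ A := by
      rw [hmem]
      refine ⟨fun i => (∑ k, c k * G k) * G' i - (∑ k, c k * G' k) * G i,
        ker_sub (ker_mul hG'.ker _) (ker_mul hG.ker _), ?_⟩
      rw [wd_sub_right W (ker_mul hG'.ker _) (ker_mul hG.ker _) hs,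
        wd_mul_right W hG'.ker hs, wd_mul_right W hG.ker hs]
      have h2 : ∀ i, c i * (W.wd G G' * s i) =
          c i * G i * W.wd s G' - c i * G' i * W.wd s G := by
        intro i
        have h3 := W.three s G G' hs hG.ker hG'.ker i
        linear_combination c i * h3
      have h4 : W.wd G G' * ∑ i, c i * s i =
          (∑ i, c i * G i) * W.wd s G' - (∑ i, c i * G' i) * W.wd s G := by
        rw [Finset.mul_sum, Finset.sum_mul, Finset.sum_mul, ← Finset.sum_sub_distrib]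
        refine Finset.sum_congr rfl fun i _ => ?_
        rw [← h2 i]
        ring
      rw [hc] at h4
      rw [← h4]
      ring
    have h5 := (mem_zeroLocus_iff.1 hx) _ h1
    rw [MvPolynomial.aeval_eq_eval] at h5
    have h6 : eval x q * eval x (W.wd G G') = 0 := by
      rw [← map_mul]
      exact h5
    rcases mul_eq_zero.1 h6 with h7 | h7
    · exact hq h7
    · exact hne h7
  have hrad : ∀ i : Fin (m + 1), ∃ N : ℕ, X i ^ N ∈ A := by
    intro i
    have h1 : (X i : MvPolynomial (Fin (m + 1)) ℂ) ∈ A.radical := by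
      rw [← vanishingIdeal_zeroLocus_eq_radical (K := ℂ) A, mem_vanishingIdeal_iff]
      intro x hx
      rw [hzero x hx]
      simp
    exact h1
  choose Nf hNf using hrad
  obtain ⟨M, hM⟩ : ∃ M : ℕ, ∀ i : Fin (m + 1), ∃ t : Vec E.a m, Ker E t ∧
      W.wd s t = X i ^ M * f := by
    refine ⟨∑ i, Nf i, fun i => (hmem _).1 ?_⟩
    exact A.pow_mem_of_pow_mem (hNf i) (Finset.single_le_sum (f := Nf) (fun _ _ => Nat.zero_le _)
      (Finset.mem_univ i))
  choose t ht hwt using hM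
  have hpair : ∀ i j : Fin (m + 1), ∃ c : MvPolynomial (Fin (m + 1)) ℂ, ∀ k,
      X j ^ M * t i k - X i ^ M * t j k = c * s k := by
    intro i j
    have hk1 : Ker E (fun k => X j ^ M * t i k) := ker_mul (ht i) _
    have hk2 : Ker E (fun k => X i ^ M * t j k) := ker_mul (ht j) _
    refine Prm.dvd_wd W hprm hs (ker_sub hk1 hk2) ?_
    rw [wd_sub_right W hk1 hk2 hs, wd_mul_right W (ht i) hs, wd_mul_right W (ht j) hs,
      hwt i, hwt j]
    ring
  obtain ⟨i0, i1, i2, h01, h02, h12⟩ : ∃ i0 i1 i2 : Fin (m + 1), i0 ≠ i1 ∧ i0 ≠ i2 ∧ i1 ≠ i2 :=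
    ⟨⟨0, by omega⟩, ⟨1, by omega⟩, ⟨2, by omega⟩, by simp, by simp, by simp⟩
  obtain ⟨c01, hc01⟩ := hpair i0 i1
  obtain ⟨c02, hc02⟩ := hpair i0 i2
  obtain ⟨c12, hc12⟩ := hpair i1 i2
  obtain ⟨k0, hk0⟩ := hprm.ne
  have hrel : X i2 ^ M * c01 = X i1 ^ M * c02 - X i0 ^ M * c12 := by
    apply mul_right_cancel₀ hk0
    linear_combination -(X i2 ^ M) * hc01 k0 + X i1 ^ M * hc02 k0 - X i0 ^ M * hc12 k0
  obtain ⟨b₀, b₁, hbb⟩ := H1_mono i0 i1 i2 h02 h12 M c01 c02 c12 hrel
  have hdv : ∀ {p q : MvPolynomial (Fin (m + 1)) ℂ}, X i1 ^ M * p = X i0 ^ M * q →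
      X i0 ^ M ∣ p := by
    intro p q h
    refine Prime.pow_dvd_of_dvd_mul_left (X_prime (i := i0) (R := ℂ)) M (a := X i1 ^ M) ?_ ⟨_, h⟩
    intro h5
    have h6 := (X_prime (i := i0) (R := ℂ)).dvd_of_dvd_pow h5
    rw [X_dvd_X] at h6
    exact h01 h6
  have hu : ∀ k, ∃ u, t i0 k - b₀ * s k = X i0 ^ M * u := by
    intro k
    exact hdv (p := t i0 k - b₀ * s k) (q := t i1 k - b₁ * s k) (by
      linear_combination hc01 k + s k * hbb)
  choose u hu using hu
  have hX : (X i0 : MvPolynomial (Fin (m + 1)) ℂ) ^ M ≠ 0 := pow_ne_zero _ (X_ne_zero _)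
  have hfun : (fun k => X i0 ^ M * u k) = fun k => t i0 k - b₀ * s k := by
    funext k
    exact (hu k).symm
  have hkb : Ker E (fun k => b₀ * s k) := ker_mul hs b₀
  have hker : Ker E u := by
    apply ker_of_mul hX
    rw [hfun]
    exact ker_sub (ht i0) hkb
  refine ⟨u, hker, ?_⟩
  apply mul_left_cancel₀ hX
  rw [← wd_mul_right W hker hs, hfun, wd_sub_right W (ht i0) hkb hs, wd_mul_right W hs hs,
    wd_self W hs, hwt i0]
  ring

end Pool.Agent.Q72.TI.TaskLift
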