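import Pool.Agent.Q72.TI.Stmts

/-!
# Codimension two, complete intersections and test surfaces (helper72): the Plücker coordinates
-/

set_option autoImplicit false

open MvPolynomial H960VB H938TB

namespace Pool.Agent.Q72.TI.TaskP

theorem main : Pool.Agent.Q72.TI.TaskP := by
  intro n hn E W i j
  have hx1 : (fun _ => 1 : Fin (n + 1) → ℂ) ≠ 0 := fun h => by simpa using congrFun h 0
  obtain ⟨τ, τ', G, G', hG, hG', hli⟩ := exists_sec (Pool.Agent.W615.triv E) _ hx1
  have hw : W.wd G G' ≠ 0 := by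
    intro h0
    have h1 := (W.ind _ hx1 G G' hG.ker hG'.ker).2 hli
    rw [h0, map_zero] at h1
    exact h1 rfl
  by_cases h0 : W.P i j = 0
  · exact Or.inl h0
  · have h1 := T3aux.mm_hom hG hG' i j
    have h2 : T3aux.mm G G' i j = W.wd G G' * W.P i j := W.eq G G' hG.ker hG'.ker i j
    rw [h2] at h1
    obtain ⟨a, b, hab, ha, hb⟩ := hom_of_mul _ h1 (mul_ne_zero hw h0)
    have h3 : a = τ + τ' + W.κ := ha.inj_right hw (W.hom _ _ _ _ hG hG')
    have h4 := Pool.Agent.W615.homZ_of hb
    have h5 : b.1 = E.β i + E.β j - W.κ.1 := by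
      have h6 := congrArg Prod.fst hab
      rw [h3] at h6
      simp only [Prod.fst_add] at h6
      linarith
    rwa [h5] at h4

end Pool.Agent.Q72.TI.TaskP
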