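import Pool.Agent.Q72.TI.Stmts

set_option autoImplicit false

open MvPolynomial H960VB H938TB

namespace Pool.Agent.Q72.TI.TaskPhi

theorem main : Pool.Agent.Q72.TI.TaskPhi := by
  intro n m e ψ h
  induction h with
  | id hn =>
    refine ⟨RingHom.id _, fun x p => rfl, fun p d hp => ?_, fun x hx => hx⟩
    have h1 : ((1 : ℕ) : ℤ) * d = d := by push_cast; ring
    rw [h1]
    exact hp
  | @lin m e ψ _ k hk T hT ih =>
    obtain ⟨φ, h1, h2, h3⟩ := ih
    refine ⟨(lsub T : MvPolynomial (Fin (m + 1)) ℂ →+* MvPolynomial (Fin (k + 1)) ℂ).comp φ,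
      fun x p => ?_, fun p d hp => homZ_lsub T (h2 p d hp),
      fun x hx => h3 _ (fun h0 => hx (hT (by rw [h0, map_zero])))⟩
    show eval x (lsub T (φ p)) = _
    rw [eval_lsub, h1]
  | @pow m e ψ _ f hf ih =>
    obtain ⟨φ, h1, h2, h3⟩ := ih
    refine ⟨(MvPolynomial.expand f : MvPolynomial (Fin (m + 1)) ℂ →ₐ[ℂ]
      MvPolynomial (Fin (m + 1)) ℂ).toRingHom.comp φ,
      fun x p => ?_, fun p d hp => ?_, fun x hx => h3 _ (Pool.Agent.Q72.PW.pt_ne hf hx)⟩
    · show eval x (MvPolynomial.expand f (φ p)) = _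
      rw [Pool.Agent.Q72.PW.eval_pt, h1]
      rfl
    · have h4 := Pool.Agent.Q72.PW.HomZ.expand f hf (h2 p d hp)
      have h5 : ((f * e : ℕ) : ℤ) * d = f * (e * d) := by push_cast; ring
      rw [h5]
      exact h4

end Pool.Agent.Q72.TI.TaskPhi
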