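import Pool.Agent.Q72.TI.Stmts

set_option autoImplicit false

open MvPolynomial H960VB H938TB

namespace Pool.Agent.Q72.TI.TaskSplit

private theorem const_of_homZ {m : ℕ} {p : MvPolynomial (Fin (m + 1)) ℂ} (h : HomZ p 0) :
    ∃ c : ℂ, p = C c := by
  rcases h with rfl | ⟨k, hk, hp⟩
  · exact ⟨0, by rw [C_0]⟩
  · have hk0 : k = 0 := by exact_mod_cast hk
    subst hk0
    have h1 : p.totalDegree = 0 := Nat.le_zero.1 hp.totalDegree_le
    exact ⟨_, totalDegree_eq_zero_iff_eq_C.1 h1⟩

theorem main : Pool.Agent.Q72.TI.TaskSplit := by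
  intro m hm E W s t₁ t₂ a b f g hs h1 h2 hf hg hfa hgb hf0 hrp hab
  have hc0 := Pool.Agent.W615.wd_homZ W h1 h2
  rw [show a - W.κ.1 + (b - W.κ.1) + W.κ.1 = 0 by linarith] at hc0
  obtain ⟨c, hc⟩ := const_of_homZ hc0
  by_cases hcz : c = 0
  · subst hcz
    rw [C_0] at hc
    have h3 : ∀ i, g * t₁ i = f * t₂ i := by
      intro i
      have h4 := W.three s t₁ t₂ hs.ker h1.ker h2.ker i
      rw [hc, hf, hg, zero_mul, zero_sub] at h4
      linear_combination -h4
    have h5 : ∀ i, ∃ q, t₁ i = f * q := by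
      intro i
      have h6 : f ∣ g * t₁ i := ⟨t₂ i, h3 i⟩
      exact hrp.dvd_of_dvd_mul_left h6
    choose h hh using h5
    have ht : (fun i => f * h i) = t₁ := by
      funext i
      rw [hh]
    have hk : Ker E h := by
      apply Pool.Agent.W615.ker_of_mul hf0
      rw [ht]
      exact h1.ker
    have hw : W.wd s h = 1 := by
      have h7 := Pool.Agent.W615.wd_mul_right W hk hs.ker f
      rw [ht, hf] at h7
      apply mul_left_cancel₀ hf0
      rw [← h7, mul_one]
    have hhom : ∀ i, HomZ (h i) (E.β i + -W.κ.1) := by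
      intro i
      have h8 := h1.homZ i
      have h9 := H1_hcZ_self h8
      rw [hh i, H1_hcZ_mul hfa] at h9
      have h10 := mul_left_cancel₀ hf0 h9
      rw [← h10, show E.β i + (a - W.κ.1) - a = E.β i + -W.κ.1 by ring]
      exact H1_hcZ_homZ _ _
    have hsec : Pool.Agent.W615.Sec E (-W.κ.1) h :=
      Pool.Agent.W615.sec_of_isSection ⟨hhom, fun x hx => T3aux.ker_mem hk x⟩
    exact Pool.Agent.W615.splits_of_const W hs hsec 1 one_ne_zero (by rw [hw, C_1])
  · exact Pool.Agent.W615.splits_of_const W h1 h2 c hcz hc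

end Pool.Agent.Q72.TI.TaskSplit
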